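import Pool.Agent.Helper29.BL.GoalsA
import Pool.Agent.Helper29.BL.GoalsB
import Pool.Agent.Helper29.BL.GoalsD
import Pool.Agent.Helper29.BL.PS

/-!
# Project BL (MP_a41896_nt): packet GEO

From a long chain to two levels on one curve.
-/

set_option autoImplicit false

namespace Pool.Agent.Helper58.BL

open WeierstrassCurve Height Height.AdmissibleAbsValues Polynomial
open scoped Polynomial.Bivariate
open _root_.Pool.Agent.Helper29.BL

noncomputable section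

section

variable {K : Type} [Field K] [DecidableEq K] {W₁ W₂ : Affine K}

lemma aff_of_nt {z : W₁.Point × W₂.Point} (h : NT z) : Aff z :=
  ⟨by simpa using h.1 1 one_pos, by simpa using h.2 1 one_pos⟩

lemma BallH_mono [AdmissibleAbsValues K] {H₁ : W₁.Point → ℝ} {H₂ : W₂.Point → ℝ} {d ε ε' T : ℝ}
    {B : Finset (W₁.Point × W₂.Point)} (h : BallH H₁ H₂ d ε T B) (hε : ε ≤ ε') (hT : 0 ≤ T) :
    BallH H₁ H₂ d ε' T B :=
  ⟨h.nt, h.bad, h.size, fun z hz z' hz' ↦ (h.diam z hz z' hz').trans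
    (mul_le_mul_of_nonneg_right hε hT)⟩

lemma H_eq_of_xc [AdmissibleAbsValues K] {W : Affine K} {H : W.Point → ℝ} {c₀ : ℝ} (hX : XEQ) (hQ : QSN)
    (hH : CanH W H c₀) {P Q : W.Point} (hP : P ≠ 0) (hQ' : Q ≠ 0) (h : xc P = xc Q) :
    H P = H Q := by
  rcases ((hX K W).1 P Q hP hQ').1 h with rfl | rfl
  · rfl
  · exact (hQ _ H hH.quad).2.1 Q

end

open Classical in
/-- **GEO**. -/
theorem geo_of : MI → ST → THIN → XEQ → QSN → GEO := by
  intro hMI hST hTHIN hXEQ hQSN K _ _ _ W₁ W₂ _ _ H₁ H₂ c₀ hH₁ hH₂ d hd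
  obtain ⟨m, t₀, R', hST'⟩ := hST (min 1 (d / 12)) (lt_min one_pos (by positivity)) (min_le_left _ _)
  refine ⟨m, t₀ + 1, fun M₃ ↦ ?_⟩
  obtain ⟨ε₁, hε₁, T₁, R1, hR1, hT⟩ := hTHIN K W₁ W₂ H₁ H₂ c₀ hH₁ hH₂ d hd (R' + t₀ * M₃ + 1)
  obtain ⟨ε₂, hε₂, T₂, hM⟩ := hMI K W₁ W₂ (⌈min 1 (d / 12) * ((t₀ + 1 : ℕ) * (R' + t₀ * M₃ + 1 : ℕ))⌉₊)
    ((t₀ + 1) * (R' + t₀ * M₃ + 1)) d hd
  set R2 := R' + t₀ * M₃ + 1 with hR2
  set τ := min 1 (d / 12) with hτ
  have hτ0 : 0 < τ := lt_min one_pos (by positivity)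
  have hc₀ : 0 ≤ c₀ := (abs_nonneg _).trans (hH₁.near 0)
  have hQ₁ := hQSN _ H₁ hH₁.quad
  have hQ₂ := hQSN _ H₂ hH₂.quad
  refine ⟨min (min ε₁ (ε₂ / 2)) (d / 2), by positivity,
    max (max T₁ T₂) (max (max 1 c₀) (max (4 * c₀ / ε₂) (2 * c₀ / d + 1))), R1, hR1, ?_⟩
  intro T hT0 B hB Kc K0 hKc hK0 x Tc hch
  simp only [max_le_iff] at hT0
  obtain ⟨⟨hT1, hT2⟩, ⟨hT3, hT4⟩, hT5, hT6⟩ := hT0
  have hTp : 0 < T := by linarith
  have hε2T : min (min ε₁ (ε₂ / 2)) (d / 2) * T + 2 * c₀ ≤ ε₂ * T := by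
    have h1 : min (min ε₁ (ε₂ / 2)) (d / 2) * T ≤ ε₂ / 2 * T :=
      mul_le_mul_of_nonneg_right ((min_le_left _ _).trans (min_le_right _ _)) hTp.le
    have h2 : 4 * c₀ ≤ T * ε₂ := (div_le_iff₀ hε₂).1 hT5
    linarith
  have hεd : min (min ε₁ (ε₂ / 2)) (d / 2) * T + c₀ < d * T := by
    have h1 : min (min ε₁ (ε₂ / 2)) (d / 2) * T ≤ d / 2 * T :=
      mul_le_mul_of_nonneg_right (min_le_right _ _) hTp.le
    have h2 : 2 * c₀ / d < T := by linarith
    have h3 : 2 * c₀ < T * d := (div_lt_iff₀ hd).1 h2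
    linarith
  have hB₁ : BallH H₁ H₂ d ε₁ T B := BallH_mono hB ((min_le_left _ _).trans (min_le_left _ _)) hTp.le
  have hx := hch.x_mem
  choose T2 hT2s hT2c hT2n hT2d using fun j ↦ hT T hT1 B hB₁ x hx (Tc j) (hch.sub j) (hch.card j)
  -- heights
  have hhle : ∀ z : W₁.Point × W₂.Point, hh z ≤ H₁ z.1 + H₂ z.2 + 2 * c₀ := by
    intro z
    have h1 := (abs_le.1 (hH₁.near z.1)).1
    have h2 := (abs_le.1 (hH₂.near z.2)).1
    unfold hh
    linarith
  have hT2B : ∀ j, ∀ z ∈ T2 j, z ∈ B := fun j z hz ↦ hch.sub j (hT2s j hz)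
  -- different levels
  have hlev : ∀ i j, i < j → ∀ z ∈ T2 i, ∀ z' ∈ T2 j, kap (x - z) ≠ kap (x - z') := by
    intro i j hij z hz z' hz' he
    have hz1 := aff_of_nt (hT2n i z hz)
    have hz2 := aff_of_nt (hT2n j z' hz')
    have e1 : H₁ (x - z).1 = H₁ (x - z').1 :=
      H_eq_of_xc hXEQ hQSN hH₁ hz1.1 hz2.1 (congrArg Prod.fst he)
    have e2 : H₂ (x - z).2 = H₂ (x - z').2 :=
      H_eq_of_xc hXEQ hQSN hH₂ hz1.2 hz2.2 (congrArg Prod.snd he)
    have h1 := hch.sep i j hij z (hT2s i hz) z' (hT2s j hz')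
    have h2 := hch.far i z (hT2s i hz)
    rw [← e1, ← e2] at h1
    nlinarith
  have hinj : ∀ i j, ∀ z ∈ T2 i, ∀ z' ∈ T2 j, kap (x - z) = kap (x - z') → z = z' := by
    intro i j z hz z' hz' he
    rcases lt_trichotomy i j with h | h | h
    · exact absurd he (hlev i j h z hz z' hz')
    · subst h
      by_contra hne
      exact (hT2d i z hz z' hz' hne).2 he
    · exact absurd he.symm (hlev j i h z' hz' z hz)
  set U : Finset (W₁.Point × W₂.Point) := Finset.univ.biUnion T2 with hU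
  have hUmem : ∀ z, z ∈ U ↔ ∃ j, z ∈ T2 j := fun z ↦ by simp [hU]
  have hUinj : Set.InjOn (fun z ↦ kap (x - z)) (U : Set (W₁.Point × W₂.Point)) := by
    intro z hz z' hz' he
    obtain ⟨i, hi⟩ := (hUmem z).1 hz
    obtain ⟨j, hj⟩ := (hUmem z').1 hz'
    exact hinj i j z hi z' hj he
  have hUcard : U.card ≤ (t₀ + 1) * R2 := by
    refine Finset.card_biUnion_le.trans ?_
    simp [hT2c]
  have hUB : ∀ z ∈ U, z ∈ B := fun z hz ↦ by
    obtain ⟨j, hj⟩ := (hUmem z).1 hz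
    exact hT2B j z hj
  have hUn : ∀ z ∈ U, NT (x - z) := fun z hz ↦ by
    obtain ⟨j, hj⟩ := (hUmem z).1 hz
    exact hT2n j z hj
  set Ξ : Finset (K × K) := U.image (fun z ↦ kap (x - z)) with hΞ
  have hw : ∀ p ∈ Ξ, p.1 ≠ (kap x).1 := by
    intro p hp he
    obtain ⟨z, hz, rfl⟩ := Finset.mem_image.1 hp
    have hz1 := aff_of_nt (hUn z hz)
    have hx1 := aff_of_nt (hB.nt x hx)
    have hzz := aff_of_nt (hB.nt z (hUB z hz))
    have e1 : H₁ (x - z).1 = H₁ x.1 := H_eq_of_xc hXEQ hQSN hH₁ hz1.1 hx1.1 he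
    have h1 := hB.diam x hx z (hUB z hz)
    have h2 := hB.bad x hx
    have h3 := gg_le_left x
    have h4 := (abs_le.1 (hH₁.near x.1)).1
    have h5 := hH₂.quad.nonneg (x.2 - z.2)
    have h6 : (x - z).1 = x.1 - z.1 := rfl
    rw [h6] at e1
    linarith
  have hIP : IP τ (kap x) Ξ := by
    intro Ξ' hΞ' k F hF hF0 hFw
    set S := U.filter (fun z ↦ kap (x - z) ∈ Ξ') with hS
    have hSc : S.card = Ξ'.card := by
      have h1 : S.image (fun z ↦ kap (x - z)) = Ξ' := by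
        ext p
        simp only [hS, Finset.mem_image, Finset.mem_filter]
        constructor
        · rintro ⟨z, ⟨-, hz⟩, rfl⟩
          exact hz
        · intro hp
          obtain ⟨z, hz, rfl⟩ := Finset.mem_image.1 (hΞ' hp)
          exact ⟨z, ⟨hz, hp⟩, rfl⟩
      rw [← h1, Finset.card_image_of_injOn]
      exact hUinj.mono fun z hz ↦ (Finset.mem_filter.1 hz).1
    have hScle : S.card ≤ (t₀ + 1) * R2 := (Finset.card_filter_le _ _).trans hUcard
    rcases le_or_gt k (⌈τ * ((t₀ + 1 : ℕ) * (R2 : ℕ))⌉₊) with hk | hk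
    · have hx5 : hh x ≤ 5 * T := by
        have h1 := hhle x
        have h2 := hB.size x hx
        linarith
      have h := hM T hT2 x S (aff_of_nt (hB.nt x hx)) hx5 hScle
        (fun z hz ↦ by
          have hzU := (Finset.mem_filter.1 hz).1
          refine ⟨aff_of_nt (hB.nt z (hUB z hzU)), aff_of_nt (hUn z hzU), ?_, hB.bad z (hUB z hzU)⟩
          have h1 := hhle (x - z)
          have h2 := hB.diam x hx z (hUB z hzU)
          have h6 : (x - z).1 = x.1 - z.1 := rfl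
          have h7 : (x - z).2 = x.2 - z.2 := rfl
          rw [h6, h7] at h1
          linarith)
        (fun z hz z' hz' ↦ by
          have hzU := (Finset.mem_filter.1 hz).1
          have hzU' := (Finset.mem_filter.1 hz').1
          have h1 := hhle (z - z')
          have h2 := hB.diam z (hUB z hzU) z' (hUB z' hzU')
          have h6 : (z - z').1 = z.1 - z'.1 := rfl
          have h7 : (z - z').2 = z.2 - z'.2 := rfl
          rw [h6, h7] at h1
          linarith) k hk F hF (fun z hz ↦ hF0 _ (Finset.mem_filter.1 hz).2) hFw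
      rw [hSc] at h
      have h1 : τ * (Ξ'.card : ℝ) ≤ d / 12 * (Ξ'.card : ℝ) :=
        mul_le_mul_of_nonneg_right (min_le_right _ _) (Nat.cast_nonneg _)
      linarith
    · have h1 : τ * (Ξ'.card : ℝ) ≤ τ * ((t₀ + 1 : ℕ) * (R2 : ℕ)) := by
        refine mul_le_mul_of_nonneg_left ?_ hτ0.le
        rw [← hSc]
        exact_mod_cast hScle
      have h2 := Nat.le_ceil (τ * ((t₀ + 1 : ℕ) * (R2 : ℕ)))
      have h3 : ((⌈τ * ((t₀ + 1 : ℕ) * (R2 : ℕ))⌉₊ : ℕ) : ℝ) ≤ (k : ℝ) := by exact_mod_cast hk.le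
      linarith
  obtain ⟨P, hPc, hP, hPe0⟩ := hST' K (kap x) Ξ hw hIP
  obtain ⟨E, hEc, hE⟩ : ∃ E : Finset (K × K), E.card ≤ R' ∧
      ∀ p ∈ Ξ, (∀ Φ ∈ P, ev Φ p ≠ 0) → p ∈ E :=
    ⟨_, hPe0, fun p hp h ↦ (@Finset.mem_filter _ _ (_) _ _).2 ⟨hp, h⟩⟩
  -- each level
  have hlevel : ∀ j, ∃ Φ ∈ P, M₃ ≤ ((T2 j).filter (fun z ↦ ev Φ (kap (x - z)) = 0)).card := by
    intro j
    by_contra hcon
    push Not at hcon
    have h1 : ((T2 j).filter (fun z ↦ kap (x - z) ∈ E)).card ≤ R' := by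
      refine le_trans ?_ hEc
      rw [← Finset.card_image_of_injOn (s := (T2 j).filter (fun z ↦ kap (x - z) ∈ E))
        (f := fun z ↦ kap (x - z))]
      · refine Finset.card_le_card fun p hp ↦ ?_
        obtain ⟨z, hz, rfl⟩ := Finset.mem_image.1 hp
        exact (Finset.mem_filter.1 hz).2
      · exact hUinj.mono fun z hz ↦ (hUmem z).2 ⟨j, (Finset.mem_filter.1 hz).1⟩
    have h2 : T2 j ⊆ (T2 j).filter (fun z ↦ kap (x - z) ∈ E) ∪
        P.biUnion (fun Φ ↦ (T2 j).filter (fun z ↦ ev Φ (kap (x - z)) = 0)) := by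
      intro z hz
      by_cases h : ∀ Φ ∈ P, ev Φ (kap (x - z)) ≠ 0
      · exact Finset.mem_union_left _ (Finset.mem_filter.2 ⟨hz,
          hE _ (Finset.mem_image.2 ⟨z, (hUmem z).2 ⟨j, hz⟩, rfl⟩) h⟩)
      · push Not at h
        obtain ⟨Φ, hΦ, h0⟩ := h
        exact Finset.mem_union_right _ (Finset.mem_biUnion.2 ⟨Φ, hΦ, Finset.mem_filter.2 ⟨hz, h0⟩⟩)
    have h3 : (P.biUnion (fun Φ ↦ (T2 j).filter (fun z ↦ ev Φ (kap (x - z)) = 0))).card ≤
        t₀ * M₃ := by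
      refine Finset.card_biUnion_le.trans ?_
      refine (Finset.sum_le_card_nsmul P _ M₃ fun Φ hΦ ↦ (hcon Φ hΦ).le).trans ?_
      rw [smul_eq_mul]
      exact Nat.mul_le_mul_right _ hPc
    have h4 := (Finset.card_le_card h2).trans (Finset.card_union_le _ _)
    rw [hT2c j] at h4
    omega
  choose Ph hPh hPhM using hlevel
  obtain ⟨i, -, j, -, hne, hij⟩ := Finset.exists_ne_map_eq_of_card_lt_of_maps_to
    (s := (Finset.univ : Finset (Fin (t₀ + 1)))) (t := P) (by simpa using Nat.lt_succ_of_le hPc)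
    (f := Ph) (fun j _ ↦ hPh j)
  have key : ∀ i j : Fin (t₀ + 1), i < j → Ph i = Ph j →
      ∃ (i j : Fin (t₀ + 1)) (S S' : Finset (W₁.Point × W₂.Point)) (Φ : K[X][Y]), i < j ∧ S ⊆ Tc i ∧
      S' ⊆ Tc j ∧ M₃ ≤ S.card ∧ M₃ ≤ S'.card ∧ Irreducible Φ ∧ BD m Φ ∧
      (∀ z ∈ S, NT (x - z) ∧ ev Φ (kap (x - z)) = 0) ∧
      (∀ z ∈ S', NT (x - z) ∧ ev Φ (kap (x - z)) = 0) ∧
      (∀ z ∈ S, ∀ z' ∈ S, z ≠ z' → NT (z - z') ∧ kap (x - z) ≠ kap (x - z')) ∧
      (∀ z ∈ S', ∀ z' ∈ S', z ≠ z' → NT (z - z') ∧ kap (x - z) ≠ kap (x - z')) := by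
    intro i j hlt he
    refine ⟨i, j, (T2 i).filter (fun z ↦ ev (Ph i) (kap (x - z)) = 0),
      (T2 j).filter (fun z ↦ ev (Ph i) (kap (x - z)) = 0), Ph i, hlt,
      (Finset.filter_subset _ _).trans (hT2s i), (Finset.filter_subset _ _).trans (hT2s j),
      hPhM i, ?_, (hP _ (hPh i)).1, (hP _ (hPh i)).2.1, ?_, ?_, ?_, ?_⟩
    · rw [he]
      exact hPhM j
    · intro z hz
      rw [Finset.mem_filter] at hz
      exact ⟨hT2n i z hz.1, hz.2⟩
    · intro z hz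
      rw [Finset.mem_filter] at hz
      exact ⟨hT2n j z hz.1, hz.2⟩
    · intro z hz z' hz' hne
      exact hT2d i z (Finset.mem_filter.1 hz).1 z' (Finset.mem_filter.1 hz').1 hne
    · intro z hz z' hz' hne
      exact hT2d j z (Finset.mem_filter.1 hz).1 z' (Finset.mem_filter.1 hz').1 hne
  rcases lt_or_gt_of_ne hne with h | h
  · exact key i j h hij
  · exact key j i h hij.symm

end

end Pool.Agent.Helper58.BL
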